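import Pool.Agent.Run7.h874.T704.H4

/-!
(piece H, written by helper704)

# Piece H: the final collision (full problem)
-/

set_option autoImplicit false

namespace Run7.h704.SYH

open Complex Set Run7.h874 Filter Topology

theorem agree (hA2 : StmtA2) {ε ϱ : ℝ} {K : NNReal} (hK : LipschitzWith K (fe ϱ ε))
    {Φ : ℝ → P4 → P4} (hΦ : IsFlow (fe ϱ ε) Φ) {g : ℝ → P4} {T : ℝ} (hT : 0 ≤ T)
    (hc : ContinuousOn g (Icc 0 T))
    (hd : ∀ t ∈ Ico 0 T, HasDerivWithinAt g (fe ϱ ε (g t)) (Ici t) t) :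
    ∀ t ∈ Icc 0 T, g t = Φ t (g 0) := by
  intro t ht
  have := hA2 P4 (fe ϱ ε) K Φ hK hΦ g (fun t => fe ϱ ε (g t)) T 0 0 hT le_rfl le_rfl hc hd
    (fun t _ => by simp) (g 0) (by simp) t ht
  have h2 : ‖g t - Φ t (g 0)‖ ≤ 0 := by simpa using this
  rw [norm_le_zero_iff, sub_eq_zero] at h2
  exact h2

theorem fe_eq {ϱ ϱ' ε : ℝ} {x : P4} (h1 : ϱ ≤ ‖rh x‖) (h1' : ϱ' ≤ ‖rh x‖)
    (h2 : ‖rh x‖ ≤ 3/10^3) (h3 : ‖x.1.1 - 1‖ ≤ 2/10^3) :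
    fe ϱ ε x = fe ϱ' ε x := by
  obtain ⟨⟨s1, s2⟩, s3, s4⟩ := sizes (h2.trans (by norm_num)) h3
  have e : rh x - x.1.1 = x.2.1 - x.1.1/2 := by unfold rh; ring
  rw [e] at s3
  have g1 : gc ϱ (rh x) = gc ϱ' (rh x) := by rw [gc_of_le h1, gc_of_le h1']
  unfold rh at g1
  have g2 : gc ϱ x.1.1 = gc ϱ' x.1.1 := by
    rw [gc_of_le (by linarith), gc_of_le (by linarith)]
  have g3 : gc ϱ (x.2.1 - x.1.1/2) = gc ϱ' (x.2.1 - x.1.1/2) := by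
    rw [gc_of_le (by linarith), gc_of_le (by linarith)]
  unfold fe
  rw [g1, g2, g3]

/-- data at the first time the flow comes to distance `ϱ1` -/
structure Hit (ε ϱ ϱ1 : ℝ) (Φ : ℝ → P4 → P4) (y : P4) (t : ℝ) : Prop where
  pos : 0 < t
  le : t ≤ Tm
  eq : ‖rh (Φ t y)‖ = ϱ1
  gt : ∀ s ∈ Ico 0 t, ϱ1 < ‖rh (Φ s y)‖
  D : ∀ s ∈ Icc 0 t, 0 ≤ DX (Φ s y)
  Dlt : ∀ s ∈ Icc 0 t, 54/100 * (t - s) ≤ DX (Φ s y)
  small : ∀ s ∈ Icc 0 t, ‖rh (Φ s y)‖ ≤ 3/10^3 ∧ ‖(Φ s y).1.1 - 1‖ ≤ 2/10^3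

theorem hit {ε ϱ ϱ1 : ℝ} (hϱ0 : 0 < ϱ) (hϱ : ϱ ≤ ϱ1) (hϱ1 : ϱ1 ≤ rho0) (hε0 : 0 < ε)
    (hε : ε ≤ 1/10^8) {Φ : ℝ → P4 → P4} (hΦ : IsFlow (fe ϱ ε) Φ) {y : P4} (hy : FinE y)
    (h : y ∈ Cset ϱ Φ) : ∃ t, Hit ε ϱ ϱ1 Φ y t := by
  have hc := flow_cont hΦ y
  have cR : Continuous fun t => ‖rh (Φ t y)‖ := (cont_rh.comp hc).norm
  obtain ⟨t1, ht1, hr1, hD1⟩ := h
  have hcl : IsClosed {t | t ∈ Icc 0 t1 ∧ ‖rh (Φ t y)‖ ≤ ϱ1} :=
    isClosed_Icc.inter (isClosed_le cR continuous_const)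
  obtain ⟨t, ht, hP, hlt⟩ := first_time hcl ⟨t1, ⟨ht1.1, le_rfl⟩, hr1.trans hϱ⟩
  have hini := (ini_of_finE hε0 hε hy).2
  have h0 : 0 < t := by
    rcases ht.1.eq_or_lt with h0 | h0
    · rw [← h0, hΦ.zero] at hP
      have : rho0 < 7/10^4 := by unfold rho0; norm_num
      linarith
    · exact h0
  have hgt : ∀ s ∈ Ico 0 t, ϱ1 < ‖rh (Φ s y)‖ := fun s hs => by
    have := hlt s hs
    push Not at this
    exact this
  have heq : ‖rh (Φ t y)‖ = ϱ1 := by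
    refine le_antisymm hP (ge_of_tendsto (x := 𝓝[<] t)
      (cR.continuousAt.mono_left nhdsWithin_le_nhds) ?_)
    filter_upwards [Ioo_mem_nhdsLT h0] with s hs
    exact (hgt s ⟨hs.1.le, hs.2⟩).le
  have hge : ∀ s ∈ Icc 0 t, ϱ1 ≤ ‖rh (Φ s y)‖ := fun s hs => by
    rcases hs.2.eq_or_lt with h1 | h1
    · rw [h1, heq]
    · exact (hgt s ⟨hs.1, h1⟩).le
  have hD : ∀ s ∈ Icc 0 t, 0 ≤ DX (Φ s y) := fun s hs => hD1 s ⟨hs.1, hs.2.trans ht.2⟩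
  have ap := ap_flow (T := t) (X := fun t => Φ t y)
    ((hϱ.trans hϱ1).trans (by unfold rho0; norm_num)) hε0 hε (ht.2.trans ht1.2) hc.continuousOn
    (fun t _ => (hΦ.deriv t y).hasDerivWithinAt) (by simpa [hΦ.zero] using hy)
    (fun s hs => hϱ0.trans_le (hϱ.trans (hge s hs))) (fun s hs => hϱ.trans (hge s hs)) hD
  refine ⟨t, h0, ht.2.trans ht1.2, heq, hgt, hD, fun s hs => ?_, fun s hs => ?_⟩
  · have h1 := ap.2 s hs t ⟨hs.2, le_rfl⟩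
    have h2 := hD t ⟨h0.le, le_rfl⟩
    linarith
  · obtain ⟨-, -, -, h4, h5⟩ := ap.1 s hs
    exact ⟨h4, h5⟩

theorem Hit.ge {ε ϱ ϱ1 t : ℝ} {Φ : ℝ → P4 → P4} {y : P4} (h : Hit ε ϱ ϱ1 Φ y t) :
    ∀ s ∈ Icc 0 t, ϱ1 ≤ ‖rh (Φ s y)‖ := fun s hs => by
  rcases hs.2.eq_or_lt with h1 | h1
  · rw [h1, h.eq]
  · exact (h.gt s ⟨hs.1, h1⟩).le

/-- up to the hitting time of `ϱ1`, the flow for the radius `ϱ` is the flow for any radius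
`ϱ' ≤ ϱ1` -/
theorem Hit.agree (hA2 : StmtA2) {ε ϱ ϱ' ϱ1 t : ℝ} {Φ Φ' : ℝ → P4 → P4} {y : P4}
    (h : Hit ε ϱ ϱ1 Φ y t) (hϱ : ϱ ≤ ϱ1) (hϱ' : ϱ' ≤ ϱ1)
    {K : NNReal} (hK : LipschitzWith K (fe ϱ' ε)) (hΦ : IsFlow (fe ϱ ε) Φ)
    (hΦ' : IsFlow (fe ϱ' ε) Φ') : ∀ s ∈ Icc 0 t, Φ s y = Φ' s y := by
  have := SYH.agree hA2 hK hΦ' (g := fun s => Φ s y) h.pos.le (flow_cont hΦ y).continuousOn
    (fun s hs => by
      have hs' := Ico_subset_Icc_self hs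
      rw [← fe_eq (hϱ.trans (h.ge s hs')) (hϱ'.trans (h.ge s hs')) (h.small s hs').1
        (h.small s hs').2]
      exact (hΦ.deriv s y).hasDerivWithinAt)
  simpa [hΦ.zero] using this

theorem nested (hA2 : StmtA2) {ε ϱ ϱ' : ℝ} (hϱ0 : 0 < ϱ') (hϱ' : ϱ' ≤ ϱ) (hϱ : ϱ ≤ rho0)
    (hε0 : 0 < ε) (hε : ε ≤ 1/10^8) {K : NNReal} (hK : LipschitzWith K (fe ϱ ε))
    {Φ Φ' : ℝ → P4 → P4} (hΦ : IsFlow (fe ϱ ε) Φ) (hΦ' : IsFlow (fe ϱ' ε) Φ') {y : P4}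
    (hy : FinE y) (h : y ∈ Cset ϱ' Φ') : y ∈ Cset ϱ Φ := by
  obtain ⟨t, ht⟩ := hit hϱ0 hϱ' hϱ hε0 hε hΦ' hy h
  have hag := ht.agree hA2 hϱ' le_rfl hK hΦ' hΦ
  refine ⟨t, ⟨ht.pos.le, ht.le⟩, ?_, fun s hs => ?_⟩
  · rw [← hag t ⟨ht.pos.le, le_rfl⟩, ht.eq]
  · rw [← hag s hs]
    exact ht.D s hs

theorem closed_Cset {ε ϱ : ℝ} {Φ : ℝ → P4 → P4} (hΦ : IsFlow (fe ϱ ε) Φ) :
    IsClosed (Cset ϱ Φ) := by
  have e : Cset ϱ Φ = Prod.snd '' {z : Icc (0:ℝ) Tm × P4 | ‖rh (Φ z.1 z.2)‖ ≤ ϱ ∧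
      ∀ r ∈ Icc (0:ℝ) 1, 0 ≤ DX (Φ (r * z.1) z.2)} := by
    ext y
    constructor
    · rintro ⟨t, ht, h1, h2⟩
      refine ⟨⟨⟨t, ht⟩, y⟩, ⟨h1, fun r hr => h2 _ ⟨mul_nonneg hr.1 ht.1, ?_⟩⟩, rfl⟩
      exact mul_le_of_le_one_left ht.1 hr.2
    · rintro ⟨⟨⟨t, ht⟩, y'⟩, ⟨h1, h2⟩, rfl⟩
      refine ⟨t, ht, h1, fun s hs => ?_⟩
      rcases hs.1.eq_or_lt with h0 | h0
      · have := h2 0 ⟨le_rfl, zero_le_one⟩
        simp only [zero_mul] at this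
        rwa [← h0]
      · have ht0 : 0 < t := h0.trans_le hs.2
        have := h2 (s/t) ⟨by positivity, by rw [div_le_one ht0]; exact hs.2⟩
        simp only at this
        rwa [div_mul_cancel₀ _ ht0.ne'] at this
  rw [e]
  refine isClosedMap_snd_of_compactSpace _ ?_
  have hc : Continuous fun z : Icc (0:ℝ) Tm × P4 => Function.uncurry Φ (z.1.1, z.2) :=
    hΦ.cont.comp (by fun_prop)
  refine (isClosed_le (cont_rh.comp hc).norm continuous_const).inter ?_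
  have : {z : Icc (0:ℝ) Tm × P4 | ∀ r ∈ Icc (0:ℝ) 1, 0 ≤ DX (Φ (r * z.1) z.2)}
      = ⋂ r ∈ Icc (0:ℝ) 1, {z : Icc (0:ℝ) Tm × P4 | 0 ≤ DX (Φ (r * z.1) z.2)} := by
    ext z; simp
  have h2 : IsClosed {z : Icc (0:ℝ) Tm × P4 | ∀ r ∈ Icc (0:ℝ) 1, 0 ≤ DX (Φ (r * z.1) z.2)} := by
    rw [this]
    refine isClosed_biInter fun r _ => ?_
    have hc2 : Continuous fun z : Icc (0:ℝ) Tm × P4 => Function.uncurry Φ (r * z.1.1, z.2) :=
      hΦ.cont.comp (by fun_prop)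
    exact isClosed_le continuous_const (cont_DX.comp hc2)
  exact h2

noncomputable def rn (n : ℕ) : ℝ := rho0 / (n + 1)

theorem rho0_pos : 0 < rho0 := by unfold rho0; norm_num

theorem rn_pos (n : ℕ) : 0 < rn n := div_pos rho0_pos (by positivity)

theorem rn_anti {n m : ℕ} (h : n ≤ m) : rn m ≤ rn n := by
  unfold rn
  have := rho0_pos
  gcongr

theorem rn_lt (n : ℕ) : rn (n + 1) < rn n := by
  unfold rn
  have := rho0_pos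
  push_cast
  gcongr
  linarith

theorem rn_le (n : ℕ) : rn n ≤ rho0 := by
  have := rn_anti (Nat.zero_le n)
  simpa [rn] using this

theorem coll (hA2 : StmtA2) {ε : ℝ} (hε0 : 0 < ε) (hε : ε ≤ 1/10^8) {Φ : ℕ → ℝ → P4 → P4}
    (hΦ : ∀ n, IsFlow (fe (rn n) ε) (Φ n)) {K : ℕ → NNReal}
    (hK : ∀ n, LipschitzWith (K n) (fe (rn n) ε)) {y : P4} (hy : FinE y)
    (h : ∀ n, y ∈ Cset (rn n) (Φ n)) : Coll ε y := by
  classical
  choose τ hτ using fun n => hit (rn_pos n) le_rfl (rn_le n) hε0 hε (hΦ n) hy (h n)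
  have hag : ∀ n m, n ≤ m → ∀ s ∈ Icc 0 (τ n), Φ n s y = Φ m s y := fun n m hnm =>
    (hτ n).agree hA2 le_rfl (rn_anti hnm) (hK m) (hΦ n) (hΦ m)
  have hlt : ∀ n, τ n < τ (n+1) := by
    intro n
    by_contra hcon
    push Not at hcon
    have h1 := hag n (n+1) (Nat.le_succ n) (τ (n+1)) ⟨(hτ (n+1)).pos.le, hcon⟩
    have h2 := (hτ n).ge (τ (n+1)) ⟨(hτ (n+1)).pos.le, hcon⟩
    rw [h1, (hτ (n+1)).eq] at h2
    linarith [rn_lt n]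
  have hmono : StrictMono τ := strictMono_nat_of_lt_succ hlt
  have hbdd : BddAbove (range τ) := ⟨Tm, by rintro _ ⟨n, rfl⟩; exact (hτ n).le⟩
  set ω := ⨆ n, τ n with hω
  have hτω : ∀ n, τ n < ω := fun n => (hlt n).trans_le (le_ciSup hbdd (n+1))
  have hex : ∀ t < ω, ∃ n, t < τ n := fun t ht => exists_lt_of_lt_ciSup ht
  set X : ℝ → P4 := fun t => if h : ∃ n, t < τ n then Φ (Nat.find h) t y else 0 with hXd
  have hX : ∀ n t, 0 ≤ t → t < τ n → X t = Φ n t y := by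
    intro n t h0 ht
    have h1 : ∃ n, t < τ n := ⟨n, ht⟩
    have h2 : X t = Φ (Nat.find h1) t y := by simp only [hXd]; rw [dif_pos h1]
    rw [h2]
    exact hag _ _ (Nat.find_min' h1 ht) t ⟨h0, (Nat.find_spec h1).le⟩
  have hfe : ∀ n t, 0 ≤ t → t < τ n → fe (rn n) ε (Φ n t y) = fe 0 ε (X t) := by
    intro n t h0 ht
    rw [hX n t h0 ht]
    have hs : t ∈ Icc 0 (τ n) := ⟨h0, ht.le⟩
    exact fe_eq ((hτ n).ge t hs) (norm_nonneg _) ((hτ n).small t hs).1 ((hτ n).small t hs).2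
  refine ⟨ω, X, (hτ 0).pos.trans (hτω 0), ?_, ?_, ?_, ?_, ?_⟩
  · rw [hX 0 0 le_rfl (hτ 0).pos, (hΦ 0).zero]
  · intro t ht
    obtain ⟨n, hn⟩ := hex t ht.2
    rw [← hfe n t ht.1 hn]
    refine ((hΦ n).deriv t y).hasDerivWithinAt.congr_of_eventuallyEq ?_ (hX n t ht.1 hn)
    filter_upwards [Ico_mem_nhdsGE hn] with s hs
    exact hX n s (ht.1.trans hs.1) hs.2
  · intro t ht
    obtain ⟨n, hn⟩ := hex t ht.2
    rw [← hfe n t ht.1.le hn]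
    refine ((hΦ n).deriv t y).congr_of_eventuallyEq ?_
    filter_upwards [Ioo_mem_nhds ht.1 hn] with s hs
    exact hX n s hs.1.le hs.2
  · intro t ht
    obtain ⟨n, hn⟩ := hex t ht.2
    have hs : t ∈ Icc 0 (τ n) := ⟨ht.1, hn.le⟩
    rw [hX n t ht.1 hn]
    have h1 := (hτ n).ge t hs
    obtain ⟨h2, h3⟩ := (hτ n).small t hs
    have h4 := (hτ n).Dlt t hs
    obtain ⟨⟨s1, s2⟩, s3, s4⟩ := sizes (h2.trans (by norm_num)) h3
    have e : rh (Φ n t y) - (Φ n t y).1.1 = (Φ n t y).2.1 - (Φ n t y).1.1/2 := by unfold rh; ring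
    rw [e] at s3
    refine ⟨?_, ?_, ?_, ?_⟩
    · intro h0
      rw [h0, norm_zero] at s1
      norm_num at s1
    · intro h0
      have h5 : rh (Φ n t y) = 0 := h0
      rw [h5, norm_zero] at h1
      linarith [rn_pos n]
    · intro h0
      rw [h0, norm_zero] at s3
      norm_num at s3
    · have h5 : 0 < DX (Φ n t y) := by
        have : 0 < 54/100 * (τ n - t) := by
          apply mul_pos (by norm_num); linarith
        linarith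
      have h6 : DX (Φ n t y) = ((Φ n t y).2.1 * (starRingEnd ℂ) (Φ n t y).1.1).im := by
        simp [DX, Df, rh]
        ring
      rwa [h6] at h5
  · intro κ hκ t0 ht0
    obtain ⟨n1, hn1⟩ := hex t0 ht0
    have hlim : Tendsto rn atTop (𝓝 0) := by
      have := tendsto_one_div_add_atTop_nhds_zero_nat (𝕜 := ℝ)
      have h2 := this.const_mul rho0
      rw [mul_zero] at h2
      refine h2.congr fun n => ?_
      unfold rn; ring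
    obtain ⟨n, hn, hn2⟩ := ((hlim.eventually (gt_mem_nhds hκ)).and (eventually_ge_atTop n1)).exists
    refine ⟨τ n, ⟨hn1.trans_le (hmono.monotone hn2), hτω n⟩, (hτ n).pos.le, ?_⟩
    have h1 := hX (n+1) (τ n) (hτ n).pos.le (hlt n)
    have h2 := hag n (n+1) (Nat.le_succ n) (τ n) ⟨(hτ n).pos.le, le_rfl⟩
    rw [h1, ← h2]
    have h3 := (hτ n).eq
    unfold rh at h3
    rw [h3]
    exact hn

/-- Piece H. -/
theorem main (hA1 : StmtA1) (hA2 : StmtA2) (hA3 : StmtA3) : StmtH := by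
  refine ⟨1/10^8, by norm_num, fun ε hε0 hε => ?_⟩
  have hfl : ∀ n : ℕ, ∃ (Φ : ℝ → P4 → P4) (K : NNReal), IsFlow (fe (rn n) ε) Φ ∧
      LipschitzWith K (fe (rn n) ε) := by
    intro n
    obtain ⟨K, hK⟩ := hA3.2.1 (rn n) ε (rn_pos n)
      ((rn_le n).trans (by unfold rho0; norm_num)) hε0.le (by linarith)
    obtain ⟨Φ, hΦ⟩ := hA1 P4 _ K hK
    exact ⟨Φ, K, hΦ, hK⟩
  choose Φ K hΦ hK using hfl
  refine ⟨⋂ n, Cset (rn n) (Φ n), isClosed_iInter fun n => closed_Cset (hΦ n), fun y hy hF =>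
    coll hA2 hε0 hε.le hΦ hK hF (fun n => mem_iInter.mp hy n), ?_⟩
  intro a b y hab hyc hF hX
  have hcl : ∀ n, IsClosed (Icc a b ∩ y ⁻¹' Cset (rn n) (Φ n)) := fun n =>
    hyc.preimage_isClosed_of_isClosed isClosed_Icc (closed_Cset (hΦ n))
  have := IsCompact.nonempty_iInter_of_sequence_nonempty_isCompact_isClosed
    (fun n => Icc a b ∩ y ⁻¹' Cset (rn n) (Φ n))
    (fun n p hp => ⟨hp.1, nested hA2 (rn_pos (n+1)) (rn_lt n).le (rn_le n) hε0 hε.le (hK n) (hΦ n)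
      (hΦ (n+1)) (hF p hp.1) hp.2⟩)
    (fun n => by
      obtain ⟨p, hp, hp2⟩ := nonempty_K hε0 hε.le (rn_pos n) (rn_le n) (hΦ n) hab hyc hF hX
      exact ⟨p, hp, hp2⟩)
    (isCompact_Icc.of_isClosed_subset (hcl 0) inter_subset_left) hcl
  obtain ⟨p, hp⟩ := this
  rw [mem_iInter] at hp
  exact ⟨p, (hp 0).1, mem_iInter.mpr fun n => (hp n).2⟩

end Run7.h704.SYH

/-- Piece H of the project of helper874. -/
theorem Run7.h874.pH (hA1 : Run7.h874.StmtA1) (hA2 : Run7.h874.StmtA2) (hA3 : Run7.h874.StmtA3) :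
    Run7.h874.StmtH :=
  Run7.h704.SYH.main hA1 hA2 hA3
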