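import Pool.Agent.Run7.h874.Iface

/-!
(piece H, written by helper704)

# Piece H, part 1: a-priori estimates near the final collision
-/

set_option autoImplicit false

namespace Run7.h704.SYH

open Complex Set Run7.h874

/-- continuity induction -/
theorem boot {T : ℝ} {h : ℝ → ℝ} (hc : ContinuousOn h (Icc 0 T)) (h0 : h 0 < 0)
    (hs : ∀ t ∈ Icc 0 T, 0 < t → (∀ s ∈ Ico 0 t, h s < 0) → h t < 0) :
    ∀ t ∈ Icc 0 T, h t < 0 := by
  by_contra hne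
  push Not at hne
  obtain ⟨t1, ht1, hht1⟩ := hne
  have hAc : IsClosed (Icc 0 T ∩ h ⁻¹' (Ici 0)) :=
    hc.preimage_isClosed_of_isClosed isClosed_Icc isClosed_Ici
  have hAne : (Icc 0 T ∩ h ⁻¹' (Ici 0)).Nonempty := ⟨t1, ht1, hht1⟩
  have hAb : BddBelow (Icc 0 T ∩ h ⁻¹' (Ici 0)) := ⟨0, fun t ht => ht.1.1⟩
  have ht0 := hAc.csInf_mem hAne hAb
  set t0 := sInf (Icc 0 T ∩ h ⁻¹' (Ici 0)) with ht0d
  have hh0 : 0 ≤ h t0 := ht0.2
  rcases ht0.1.1.eq_or_lt with h1 | h1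
  · rw [← h1] at hh0
    linarith
  · have := hs t0 ht0.1 h1 (fun s hs' => by
      by_contra hcon
      push Not at hcon
      have : t0 ≤ s := csInf_le hAb ⟨⟨hs'.1, hs'.2.le.trans ht0.1.2⟩, hcon⟩
      linarith [hs'.2])
    linarith

theorem gc_of_le {ϱ : ℝ} {z : ℂ} (h : ϱ ≤ ‖z‖) : gc ϱ z = (((‖z‖) ^ 3)⁻¹ : ℝ) • z := by
  unfold gc
  rw [max_eq_left h]

theorem norm_gc_of_le {ϱ : ℝ} {z : ℂ} (h : ϱ ≤ ‖z‖) (hz : 0 < ‖z‖) : ‖gc ϱ z‖ = 1 / ‖z‖ ^ 2 := by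
  rw [gc_of_le h, norm_smul, Real.norm_of_nonneg (by positivity)]
  field_simp

theorem inv_cube_sub {u v : ℝ} (hu : 98/100 ≤ u) (hu' : u ≤ 102/100) (hv : 98/100 ≤ v)
    (hv' : v ≤ 102/100) : |(u ^ 3)⁻¹ - (v ^ 3)⁻¹| ≤ 36/10 * |u - v| := by
  have e : (u ^ 3)⁻¹ - (v ^ 3)⁻¹ = (v - u) * ((v^2 + u*v + u^2) / (u^3 * v^3)) := by
    field_simp
    ring
  have hc0 : 0 ≤ (v^2 + u*v + u^2) / (u^3 * v^3) := by positivity
  have h1 : (98/100:ℝ)^3 ≤ u^3 := by gcongr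
  have h2 : (98/100:ℝ)^3 ≤ v^3 := by gcongr
  have h3 : (98/100:ℝ)^3 * (98/100:ℝ)^3 ≤ u^3 * v^3 := by gcongr
  have hc : (v^2 + u*v + u^2) / (u^3 * v^3) ≤ 36/10 := by
    rw [div_le_iff₀ (by positivity)]
    have : v^2 + u*v + u^2 ≤ 3 * (102/100)^2 := by nlinarith
    nlinarith
  rw [e, abs_mul, abs_of_nonneg hc0, abs_sub_comm, mul_comm]
  gcongr

/-- reduced trajectories: `R = q₁ - q₀`, `ρ = q₂ - q₀`, `w`, `q` their inertial velocities (in the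
rotating frame) -/
structure Tj (ϱ ε T : ℝ) (R w ρ q : ℝ → ℂ) : Prop where
  cR : ContinuousOn R (Icc 0 T)
  cw : ContinuousOn w (Icc 0 T)
  cρ : ContinuousOn ρ (Icc 0 T)
  cq : ContinuousOn q (Icc 0 T)
  dR : ∀ t ∈ Ico 0 T, HasDerivWithinAt R (w t - I * R t) (Ici t) t
  dw : ∀ t ∈ Ico 0 T, HasDerivWithinAt w
    (-I * w t - gc ϱ (R t) + ε * (gc ϱ (ρ t - R t) - gc ϱ (ρ t))) (Ici t) t
  dρ : ∀ t ∈ Ico 0 T, HasDerivWithinAt ρ (q t - I * ρ t) (Ici t) t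
  dq : ∀ t ∈ Ico 0 T, HasDerivWithinAt q
    (-I * q t - (1/2 + ε) * gc ϱ (ρ t) - (1/2) * (gc ϱ (ρ t - R t) + gc ϱ (R t))) (Ici t) t

theorem Tj.mono {ϱ ε T : ℝ} {R w ρ q : ℝ → ℂ} (h : Tj ϱ ε T R w ρ q) {T' : ℝ} (hT : T' ≤ T) :
    Tj ϱ ε T' R w ρ q where
  cR := h.cR.mono (Icc_subset_Icc_right hT)
  cw := h.cw.mono (Icc_subset_Icc_right hT)
  cρ := h.cρ.mono (Icc_subset_Icc_right hT)
  cq := h.cq.mono (Icc_subset_Icc_right hT)
  dR := fun t ht => h.dR t ⟨ht.1, ht.2.trans_le hT⟩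
  dw := fun t ht => h.dw t ⟨ht.1, ht.2.trans_le hT⟩
  dρ := fun t ht => h.dρ t ⟨ht.1, ht.2.trans_le hT⟩
  dq := fun t ht => h.dq t ⟨ht.1, ht.2.trans_le hT⟩

/-- the energy of the binary `0`, `2` -/
theorem dK {ϱ ε : ℝ} {ρ q : ℝ → ℂ} {t : ℝ} {G : ℂ}
    (hq : HasDerivWithinAt q (-I * q t - (1/2 + ε) * gc ϱ (ρ t) - (1/2) * G) (Ici t) t)
    (hρ : HasDerivWithinAt ρ (q t - I * ρ t) (Ici t) t) (hne : ρ t ≠ 0) (hge : ϱ ≤ ‖ρ t‖) :
    HasDerivWithinAt (fun s => ‖q s‖^2/2 - (1/2+ε)/‖ρ s‖)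
      (-(1/2) * ((starRingEnd ℂ) (q t) * G).re) (Ici t) t := by
  have hn : 0 < ‖ρ t‖ := norm_pos_iff.mpr hne
  have h1 := hq.norm_sq
  have h2 := (hρ.norm_sq.sqrt (by positivity))
  simp only [Real.sqrt_sq (norm_nonneg _)] at h2
  have h3 := ((h2.inv hn.ne').const_mul (1/2+ε))
  have h4 := (h1.div_const 2).sub h3
  refine (h4.congr_deriv ?_).congr_of_eventuallyEq (Filter.Eventually.of_forall fun s => ?_) ?_
  · rw [gc_of_le hge]
    have hn2 : ‖ρ t‖^2 = (ρ t).re^2 + (ρ t).im^2 := by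
      rw [← Complex.normSq_eq_norm_sq, Complex.normSq_apply]; ring
    set n := ‖ρ t‖
    simp only [Complex.inner, Complex.mul_re, Complex.sub_re, Complex.sub_im, Complex.mul_im,
      Complex.neg_re, Complex.neg_im, Complex.I_re, Complex.I_im, Complex.real_smul,
      Complex.ofReal_re, Complex.ofReal_im, Complex.add_re, Complex.add_im, Complex.conj_re,
      Complex.conj_im]
    norm_num
    field_simp
    ring
  · simp [div_eq_mul_inv]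
  · simp [div_eq_mul_inv]

/-- sizes near the collision -/
theorem sizes {R ρ : ℂ} (hρ : ‖ρ‖ ≤ 5/10^3) (hR : ‖R - 1‖ ≤ 2/10^3) :
    (998/1000 ≤ ‖R‖ ∧ ‖R‖ ≤ 1002/1000) ∧ (993/1000 ≤ ‖ρ - R‖ ∧ ‖ρ - R‖ ≤ 1007/1000) := by
  have h1 : ‖R‖ ≤ 1002/1000 := by
    have := norm_add_le (R - 1) 1
    simp at this
    linarith
  have h2 : 998/1000 ≤ ‖R‖ := by
    have := norm_sub_norm_le (1:ℂ) (1 - R)
    simp at this
    rw [norm_sub_rev] at this
    linarith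
  refine ⟨⟨h2, h1⟩, ?_, ?_⟩
  · have := norm_sub_norm_le R ρ
    rw [norm_sub_rev] at this
    linarith
  · have := norm_sub_le ρ R
    linarith

/-- the tidal force of body `1` -/
theorem tidal {ϱ : ℝ} {R ρ : ℂ} (hϱ : ϱ ≤ 1/2) (hρ : ‖ρ‖ ≤ 5/10^3) (hR : ‖R - 1‖ ≤ 2/10^3) :
    ‖gc ϱ (ρ - R) + gc ϱ R‖ ≤ 5 * ‖ρ‖ ∧ ‖gc ϱ R‖ ≤ 11/10 ∧ ‖gc ϱ (ρ - R)‖ ≤ 11/10 ∧
    |(‖ρ - R‖^3)⁻¹ - (‖R‖^3)⁻¹| ≤ 36/10 * ‖ρ‖ := by
  obtain ⟨⟨a1, a2⟩, b1, b2⟩ := sizes hρ hR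
  have hd : |(‖ρ - R‖^3)⁻¹ - (‖R‖^3)⁻¹| ≤ 36/10 * ‖ρ‖ := by
    refine (inv_cube_sub (by linarith) (by linarith) (by linarith) (by linarith)).trans ?_
    gcongr
    have := abs_norm_sub_norm_le (ρ - R) (-R)
    simpa using this
  refine ⟨?_, ?_, ?_, hd⟩
  · rw [gc_of_le (by linarith), gc_of_le (by linarith)]
    have e : ((‖ρ - R‖^3)⁻¹:ℝ) • (ρ - R) + ((‖R‖^3)⁻¹:ℝ) • R
        = ((‖ρ - R‖^3)⁻¹:ℝ) • ρ - ((‖ρ - R‖^3)⁻¹ - (‖R‖^3)⁻¹) • R := by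
      rw [smul_sub, sub_smul]; abel
    rw [e]
    refine (norm_sub_le _ _).trans ?_
    rw [norm_smul, norm_smul, Real.norm_eq_abs, Real.norm_eq_abs, abs_of_nonneg (by positivity)]
    have h1 : (‖ρ - R‖^3)⁻¹ ≤ 11/10 := by
      rw [inv_le_comm₀ (by positivity) (by norm_num)]
      calc ((11/10:ℝ))⁻¹ ≤ (993/1000)^3 := by norm_num
        _ ≤ _ := by gcongr
    calc (‖ρ - R‖^3)⁻¹ * ‖ρ‖ + |(‖ρ - R‖^3)⁻¹ - (‖R‖^3)⁻¹| * ‖R‖
        ≤ 11/10 * ‖ρ‖ + (36/10 * ‖ρ‖) * (1002/1000) := by gcongr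
      _ ≤ 5 * ‖ρ‖ := by nlinarith [norm_nonneg ρ]
  · rw [norm_gc_of_le (by linarith) (by linarith), div_le_iff₀ (by positivity)]
    nlinarith
  · rw [norm_gc_of_le (by linarith) (by linarith), div_le_iff₀ (by positivity)]
    nlinarith

theorem AP {ϱ ε T : ℝ} {R w ρ q : ℝ → ℂ} (hϱ : ϱ ≤ 1/2) (hε0 : 0 < ε) (hε : ε ≤ 1/10^8)
    (hT : T ≤ 45/10^6) (tj : Tj ϱ ε T R w ρ q)
    (hne : ∀ t ∈ Icc 0 T, ρ t ≠ 0) (hge : ∀ t ∈ Icc 0 T, ϱ ≤ ‖ρ t‖)
    (iρ : ‖ρ 0‖ ≤ 101/10^5) (iR : ‖R 0 - 1‖ ≤ 1/10^12) (iw : ‖w 0‖ ≤ 101/100)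
    (iq : ‖q 0‖ ≤ 3601/100) (iK : ‖q 0‖^2/2 - (1/2+ε)/‖ρ 0‖ ≤ 151) :
    ∀ t ∈ Icc 0 T, ‖ρ t‖ ≤ 3/10^3 ∧ ‖R t - 1‖ ≤ 2/10^3 ∧ ‖ρ t‖ * ‖w t‖ ≤ 31/10^4 := by
  set K : ℝ → ℝ := fun s => ‖q s‖^2/2 - (1/2+ε)/‖ρ s‖ with hK
  set μ : ℝ := ε / (1/2 + ε) with hμ
  have hμ0 : 0 ≤ μ := by positivity
  have hμ1 : μ ≤ 2/10^8 := by
    rw [hμ, div_le_iff₀ (by positivity)]
    linarith
  have hμe : μ * (1/2 + ε) = ε := by
    rw [hμ]; field_simp
  -- consequences of the bootstrap assumptions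
  have key : ∀ s, ρ s ≠ 0 → ‖ρ s‖ ≤ 5/10^3 → K s ≤ 160 → ‖ρ s‖ * ‖q s‖ ≤ 12/100 ∧
      ‖q s‖^2 ≤ 320 + (1 + 2 * ε) / ‖ρ s‖ := by
    intro s h1 h2 h3
    have hn : 0 < ‖ρ s‖ := norm_pos_iff.mpr h1
    have h4 : ‖q s‖^2 ≤ 320 + (1 + 2 * ε) / ‖ρ s‖ := by
      have : (1 + 2 * ε) / ‖ρ s‖ = 2 * ((1/2+ε)/‖ρ s‖) := by ring
      rw [this]
      simp only [hK] at h3
      linarith
    refine ⟨?_, h4⟩
    have h5 : (‖ρ s‖ * ‖q s‖)^2 ≤ 320 * ‖ρ s‖^2 + (1 + 2*ε) * ‖ρ s‖ := by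
      have := mul_le_mul_of_nonneg_left h4 (sq_nonneg ‖ρ s‖)
      rw [mul_pow]
      refine this.trans (le_of_eq ?_)
      field_simp
    have h6 : (‖ρ s‖ * ‖q s‖)^2 ≤ (12/100)^2 := by
      refine h5.trans ?_
      nlinarith
    exact le_of_sq_le_sq h6 (by norm_num)
  have cK : ContinuousOn K (Icc 0 T) := by
    refine ((tj.cq.norm.pow 2).div_const 2).sub (continuousOn_const.div tj.cρ.norm ?_)
    intro t ht
    exact (norm_pos_iff.mpr (hne t ht)).ne'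
  set h : ℝ → ℝ := fun t => max (‖ρ t‖ - 5/10^3) (max (‖R t - 1‖ - 2/10^3) (K t - 160)) with hh
  have step : ∀ t ∈ Icc 0 T, (∀ s ∈ Ico 0 t, h s < 0) → ‖ρ t‖ ≤ 3/10^3 ∧ ‖R t - 1‖ ≤ 1/10^3 ∧
      K t ≤ 152 ∧ ‖w t - μ * q t‖ ≤ 102/100 := by
    intro t ht hs
    have hs' : ∀ s ∈ Ico 0 t, ‖ρ s‖ ≤ 5/10^3 ∧ ‖R s - 1‖ ≤ 2/10^3 ∧ K s ≤ 160 := by
      intro s hst
      have := hs s hst
      simp only [hh, max_lt_iff] at this
      exact ⟨by linarith [this.1], by linarith [this.2.1], by linarith [this.2.2]⟩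
    have tj' := tj.mono ht.2
    have hIc : ∀ s ∈ Ico 0 t, s ∈ Icc 0 T := fun s hs => ⟨hs.1, hs.2.le.trans ht.2⟩
    have ht45 : t ≤ 45/10^6 := ht.2.trans hT
    have h0t : t ∈ Icc 0 t := ⟨ht.1, le_rfl⟩
    -- distance to the collision
    have e1 : ‖ρ t‖ ≤ 101/10^5 + 38 * t := by
      refine image_norm_le_of_norm_deriv_right_lt_deriv_boundary' (B := fun s => 101/10^5 + 38 * s)
        (B' := fun _ => 38) tj'.cρ tj'.dρ (by simpa using iρ) (by fun_prop) (fun x hx => ?_)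
        (fun x hx hx' => ?_) h0t
      · have := ((hasDerivAt_id x).const_mul (38:ℝ)).const_add (101/10^5)
        simpa using this.hasDerivWithinAt
      · obtain ⟨b1, b2, b3⟩ := hs' x hx
        obtain ⟨k1, k2⟩ := key x (hne x (hIc x hx)) b1 b3
        have hx38 : 101/10^5 ≤ ‖ρ x‖ := by
          rw [hx']; have := hx.1; linarith
        have hq : ‖q x‖^2 ≤ 37^2 := by
          refine k2.trans ?_
          have : (1 + 2 * ε) / ‖ρ x‖ ≤ (1 + 2/10^8) / (101/10^5) := by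
            gcongr
            linarith
          refine (add_le_add_right this _).trans ?_
          norm_num
        have hq' : ‖q x‖ ≤ 37 := le_of_sq_le_sq hq (by norm_num)
        have := norm_sub_le (q x) (I * ρ x)
        rw [norm_mul, Complex.norm_I, one_mul] at this
        linarith
    have e1' : ‖ρ t‖ ≤ 3/10^3 := by linarith
    -- energy
    have e2 : K t ≤ 152 := by
      have := norm_image_sub_le_of_norm_deriv_right_le_segment (f := K)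
        (f' := fun s => -(1/2) * ((starRingEnd ℂ) (q s) * (gc ϱ (ρ s - R s) + gc ϱ (R s))).re)
        (C := 1) (cK.mono (Icc_subset_Icc_right ht.2))
        (fun x hx => dK (tj'.dq x hx) (tj'.dρ x hx) (hne x (hIc x hx)) (hge x (hIc x hx)))
        (fun x hx => ?_) t h0t
      · have h1 := (le_abs_self _).trans this
        have h2 : K 0 ≤ 151 := iK
        linarith
      · obtain ⟨b1, b2, b3⟩ := hs' x hx
        obtain ⟨k1, k2⟩ := key x (hne x (hIc x hx)) b1 b3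
        rw [norm_mul, Real.norm_eq_abs, Real.norm_eq_abs]
        have h1 := Complex.abs_re_le_norm
          ((starRingEnd ℂ) (q x) * (gc ϱ (ρ x - R x) + gc ϱ (R x)))
        rw [norm_mul, Complex.norm_conj] at h1
        have h2 := (tidal hϱ b1 b2).1
        have h3 : ‖q x‖ * ‖gc ϱ (ρ x - R x) + gc ϱ (R x)‖ ≤ ‖q x‖ * (5 * ‖ρ x‖) := by gcongr
        have h4 : |(-(1/2) : ℝ)| = 1/2 := by norm_num
        rw [h4]
        nlinarith
    -- momentum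
    have e3 : ∀ x ∈ Icc 0 t, ‖w x - μ * q x‖ ≤ 1011/1000 + 3 * x := by
      refine image_norm_le_of_norm_deriv_right_lt_deriv_boundary'
        (f := fun s => w s - μ * q s) (B := fun s => 1011/1000 + 3 * s)
        (B' := fun _ => 3) (tj'.cw.sub (continuousOn_const.mul tj'.cq))
        (fun x hx => (tj'.dw x hx).sub ((tj'.dq x hx).const_mul (μ:ℂ))) ?_ (by fun_prop)
        (fun x hx => ?_) (fun x hx hx' => ?_)
      · have := norm_sub_le (w 0) (μ * q 0)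
        rw [norm_mul, Complex.norm_real, Real.norm_of_nonneg hμ0] at this
        have h2 : μ * ‖q 0‖ ≤ 2/10^8 * (3601/100) := by gcongr
        simp only [mul_zero, add_zero]
        linarith
      · have := ((hasDerivAt_id x).const_mul (3:ℝ)).const_add (1011/1000)
        simpa using this.hasDerivWithinAt
      · obtain ⟨b1, b2, b3⟩ := hs' x hx
        obtain ⟨t1, t2, t3, -⟩ := tidal hϱ b1 b2
        have hμe' : (μ:ℂ) * (1/2 + ε) = ε := by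
          have := congrArg ((↑) : ℝ → ℂ) hμe
          push_cast at this
          exact this
        have e : (-I * w x - gc ϱ (R x) + ε * (gc ϱ (ρ x - R x) - gc ϱ (ρ x))) -
            μ * (-I * q x - (1/2 + ε) * gc ϱ (ρ x) - (1/2) * (gc ϱ (ρ x - R x) + gc ϱ (R x)))
            = -I * (w x - μ * q x) - gc ϱ (R x) + ε * gc ϱ (ρ x - R x)
              + (μ/2) * (gc ϱ (ρ x - R x) + gc ϱ (R x)) := by
          linear_combination gc ϱ (ρ x) * hμe'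
        rw [e]
        have n1 : ‖-I * (w x - μ * q x)‖ = ‖w x - μ * q x‖ := by
          rw [norm_mul, norm_neg, Complex.norm_I, one_mul]
        have n2 : ‖(ε:ℂ) * gc ϱ (ρ x - R x)‖ ≤ 1/10^8 * (11/10) := by
          rw [norm_mul, Complex.norm_real, Real.norm_of_nonneg hε0.le]
          gcongr
        have n3 : ‖((μ:ℂ)/2) * (gc ϱ (ρ x - R x) + gc ϱ (R x))‖ ≤ 2/10^8/2 * (5 * (5/10^3)) := by
          rw [norm_mul, norm_div, Complex.norm_real, Real.norm_of_nonneg hμ0, Complex.norm_two]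
          gcongr
          exact t1.trans (by gcongr)
        have n4 := norm_add_le (-I * (w x - μ * q x) - gc ϱ (R x) + ε * gc ϱ (ρ x - R x))
              ((μ/2) * (gc ϱ (ρ x - R x) + gc ϱ (R x)))
        have n5 := norm_add_le (-I * (w x - μ * q x) - gc ϱ (R x)) (ε * gc ϱ (ρ x - R x))
        have n6 := norm_sub_le (-I * (w x - μ * q x)) (gc ϱ (R x))
        have n7 : x ≤ 45/10^6 := hx.2.le.trans ht45
        rw [hx'] at n1
        linarith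
    have e4 : ‖(R t - μ * ρ t) - (R 0 - μ * ρ 0)‖ ≤ 21/10 * (t - 0) := by
      refine norm_image_sub_le_of_norm_deriv_right_le_segment (f := fun s => R s - μ * ρ s)
        (f' := fun s => (w s - I * R s) - μ * (q s - I * ρ s)) (C := 21/10)
        (tj'.cR.sub (continuousOn_const.mul tj'.cρ))
        (fun x hx => (tj'.dR x hx).sub ((tj'.dρ x hx).const_mul (μ:ℂ)))
        (fun x hx => ?_) t h0t
      obtain ⟨b1, b2, b3⟩ := hs' x hx
      obtain ⟨⟨s1, s2⟩, -⟩ := sizes b1 b2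
      have f1 := e3 x (Ico_subset_Icc_self hx)
      have e : (w x - I * R x) - μ * (q x - I * ρ x)
          = (w x - μ * q x) - I * R x + (μ:ℂ) * (I * ρ x) := by ring
      rw [e]
      have n1 := norm_add_le ((w x - μ * q x) - I * R x) ((μ:ℂ) * (I * ρ x))
      have n2 := norm_sub_le (w x - μ * q x) (I * R x)
      rw [norm_mul I, Complex.norm_I, one_mul] at n2
      have n3 : ‖(μ:ℂ) * (I * ρ x)‖ ≤ 2/10^8 * (5/10^3) := by
        rw [norm_mul, norm_mul, Complex.norm_I, one_mul, Complex.norm_real,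
          Real.norm_of_nonneg hμ0]
        gcongr
      have n7 : x ≤ 45/10^6 := hx.2.le.trans ht45
      linarith
    have e5 : ‖R t - 1‖ ≤ 1/10^3 := by
      have e : R t - 1 = ((R t - μ * ρ t) - (R 0 - μ * ρ 0)) + (R 0 - 1)
          + (μ:ℂ) * (ρ t - ρ 0) := by ring
      have n1 := norm_add_le (((R t - μ * ρ t) - (R 0 - μ * ρ 0)) + (R 0 - 1))
        ((μ:ℂ) * (ρ t - ρ 0))
      have n2 := norm_add_le ((R t - μ * ρ t) - (R 0 - μ * ρ 0)) (R 0 - 1)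
      have n3 : ‖(μ:ℂ) * (ρ t - ρ 0)‖ ≤ 2/10^8 * (1/100) := by
        rw [norm_mul, Complex.norm_real, Real.norm_of_nonneg hμ0]
        gcongr
        have := norm_sub_le (ρ t) (ρ 0)
        linarith
      rw [← e] at n1
      linarith
    refine ⟨e1', e5, e2, ?_⟩
    have := e3 t h0t
    linarith
  have hneg : ∀ t ∈ Icc 0 T, h t < 0 := by
    refine boot ?_ ?_ ?_
    · exact (tj.cρ.norm.sub continuousOn_const).sup
        (((tj.cR.sub continuousOn_const).norm.sub continuousOn_const).sup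
          (cK.sub continuousOn_const))
    · simp only [hh, max_lt_iff]
      have : K 0 ≤ 151 := iK
      exact ⟨by linarith, by linarith, by linarith⟩
    · intro t ht _ hs
      obtain ⟨a1, a2, a3, -⟩ := step t ht hs
      simp only [hh, max_lt_iff]
      exact ⟨by linarith, by linarith, by linarith⟩
  intro t ht
  obtain ⟨a1, a2, a3, a4⟩ := step t ht (fun s hs => hneg s ⟨hs.1, hs.2.le.trans ht.2⟩)
  refine ⟨a1, a2.trans (by norm_num), ?_⟩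
  obtain ⟨k1, -⟩ := key t (hne t ht) (a1.trans (by norm_num)) (a3.trans (by norm_num))
  have n1 : ‖w t‖ ≤ ‖w t - μ * q t‖ + μ * ‖q t‖ := by
    have := norm_add_le (w t - μ * q t) (μ * q t)
    rw [norm_mul, Complex.norm_real, Real.norm_of_nonneg hμ0] at this
    simpa using this
  calc ‖ρ t‖ * ‖w t‖ ≤ ‖ρ t‖ * (102/100 + μ * ‖q t‖) := by gcongr; linarith
    _ = ‖ρ t‖ * (102/100) + μ * (‖ρ t‖ * ‖q t‖) := by ring
    _ ≤ 3/10^3 * (102/100) + 2/10^8 * (12/100) := by gcongr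
    _ ≤ 31/10^4 := by norm_num

end Run7.h704.SYH
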