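import Pool.Agent.Run7.h874.T704.H1

/-!
(piece H, written by helper704)

# Piece H, part 2: the exact identities and their consequences
-/

set_option autoImplicit false

namespace Run7.h704.SYH

open Complex Set Run7.h874

/-- `Im(ρ R̄)` -/
noncomputable def Df (R ρ : ℂ) : ℝ := (ρ * (starRingEnd ℂ) R).im
/-- `Re(ρ R̄)` -/
noncomputable def Gf (R ρ : ℂ) : ℝ := (ρ * (starRingEnd ℂ) R).re
noncomputable def Bf (R w ρ q : ℂ) : ℝ :=
  (q * (starRingEnd ℂ) R).im - (ρ * (starRingEnd ℂ) w).im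
noncomputable def Lf (ρ q : ℂ) : ℝ := ((starRingEnd ℂ) ρ * q).im

theorem hasDeriv_re {f : ℝ → ℂ} {f' : ℂ} {s : Set ℝ} {t : ℝ} (h : HasDerivWithinAt f f' s t) :
    HasDerivWithinAt (fun x => (f x).re) f'.re s t :=
  Complex.reCLM.hasFDerivAt.comp_hasDerivWithinAt t h

theorem hasDeriv_im {f : ℝ → ℂ} {f' : ℂ} {s : Set ℝ} {t : ℝ} (h : HasDerivWithinAt f f' s t) :
    HasDerivWithinAt (fun x => (f x).im) f'.im s t :=
  Complex.imCLM.hasFDerivAt.comp_hasDerivWithinAt t h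

theorem hasDeriv_conj {f : ℝ → ℂ} {f' : ℂ} {s : Set ℝ} {t : ℝ} (h : HasDerivWithinAt f f' s t) :
    HasDerivWithinAt (fun x => (starRingEnd ℂ) (f x)) ((starRingEnd ℂ) f') s t := by
  have := Complex.conjCLE.toContinuousLinearMap.hasFDerivAt.comp_hasDerivWithinAt t h
  exact this

theorem dD {R w ρ q : ℝ → ℂ} {s : Set ℝ} {t : ℝ}
    (hR : HasDerivWithinAt R (w t - I * R t) s t) (hρ : HasDerivWithinAt ρ (q t - I * ρ t) s t) :
    HasDerivWithinAt (fun x => Df (R x) (ρ x))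
      (Bf (R t) (w t) (ρ t) (q t) + 2 * (ρ t * (starRingEnd ℂ) (w t)).im) s t := by
  refine (hasDeriv_im (hρ.mul (hasDeriv_conj hR))).congr_deriv ?_
  simp [Bf]
  ring

theorem dB {ε m1 m2 m3 : ℝ} {R w ρ q : ℝ → ℂ} {s : Set ℝ} {t : ℝ}
    (hR : HasDerivWithinAt R (w t - I * R t) s t) (hρ : HasDerivWithinAt ρ (q t - I * ρ t) s t)
    (hw : HasDerivWithinAt w (-I * w t - m3 • R t + ε * (m2 • (ρ t - R t) - m1 • ρ t)) s t)
    (hq : HasDerivWithinAt q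
      (-I * q t - (1/2 + ε) * (m1 • ρ t) - (1/2) * (m2 • (ρ t - R t) + m3 • R t)) s t) :
    HasDerivWithinAt (fun x => Bf (R x) (w x) (ρ x) (q x))
      (-Df (R t) (ρ t) * ((1/2 + ε) * m1 + (1/2 - ε) * m2 - m3)) s t := by
  refine ((hasDeriv_im (hq.mul (hasDeriv_conj hR))).sub
    (hasDeriv_im (hρ.mul (hasDeriv_conj hw)))).congr_deriv ?_
  simp [Df, Complex.real_smul]
  ring

theorem dL {ε m1 m2 m3 : ℝ} {R ρ q : ℝ → ℂ} {s : Set ℝ} {t : ℝ}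
    (hρ : HasDerivWithinAt ρ (q t - I * ρ t) s t)
    (hq : HasDerivWithinAt q
      (-I * q t - (1/2 + ε) * (m1 • ρ t) - (1/2) * (m2 • (ρ t - R t) + m3 • R t)) s t) :
    HasDerivWithinAt (fun x => Lf (ρ x) (q x))
      (-(1/2) * Df (R t) (ρ t) * (m2 - m3)) s t := by
  refine (hasDeriv_im ((hasDeriv_conj hρ).mul hq)).congr_deriv ?_
  simp [Df, Complex.real_smul]
  ring

/-- initial data of the final approach -/
structure Ini (ε : ℝ) (R w ρ q : ℂ) : Prop where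
  iρ : ‖ρ‖ ≤ 101/10^5
  iR : ‖R - 1‖ ≤ 1/10^12
  iw : ‖w‖ ≤ 101/100
  iq : ‖q‖ ≤ 3601/100
  iK : ‖q‖^2/2 - (1/2+ε)/‖ρ‖ ≤ 151
  iB : Bf R w ρ q ≤ -547/1000
  iD : Df R ρ ≤ 211/10^7
  iD0 : 0 < Df R ρ

theorem AP2 {ϱ ε T : ℝ} {R w ρ q : ℝ → ℂ} (hϱ : ϱ ≤ 1/2) (hε0 : 0 < ε) (hε : ε ≤ 1/10^8)
    (hT : T ≤ 45/10^6) (tj : Tj ϱ ε T R w ρ q)
    (hne : ∀ t ∈ Icc 0 T, ρ t ≠ 0) (hge : ∀ t ∈ Icc 0 T, ϱ ≤ ‖ρ t‖)
    (ini : Ini ε (R 0) (w 0) (ρ 0) (q 0)) (hD : ∀ t ∈ Icc 0 T, 0 ≤ Df (R t) (ρ t)) :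
    (∀ t ∈ Icc 0 T, Bf (R t) (w t) (ρ t) (q t) ≤ -547/1000 ∧ ‖ρ t‖ * ‖w t‖ ≤ 31/10^4 ∧
      |Lf (ρ t) (q t) - Lf (ρ 0) (q 0)| ≤ 6/10^12 ∧ 
      ‖ρ t‖ ≤ 3/10^3 ∧ ‖R t - 1‖ ≤ 2/10^3) ∧
    ∀ s ∈ Icc 0 T, ∀ t ∈ Icc s T, Df (R t) (ρ t) ≤ Df (R s) (ρ s) - 54/100 * (t - s) := by
  have ap := AP hϱ hε0 hε hT tj hne hge ini.iρ ini.iR ini.iw ini.iq ini.iK
  have cconj : ∀ {f : ℝ → ℂ}, ContinuousOn f (Icc 0 T) →
      ContinuousOn (fun x => (starRingEnd ℂ) (f x)) (Icc 0 T) := fun h =>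
    Complex.continuous_conj.comp_continuousOn h
  have cim : ∀ {f : ℝ → ℂ}, ContinuousOn f (Icc 0 T) →
      ContinuousOn (fun x => (f x).im) (Icc 0 T) := fun h =>
    Complex.continuous_im.comp_continuousOn h
  have cB : ContinuousOn (fun x => Bf (R x) (w x) (ρ x) (q x)) (Icc 0 T) :=
    (cim (tj.cq.mul (cconj tj.cR))).sub (cim (tj.cρ.mul (cconj tj.cw)))
  have cD : ContinuousOn (fun x => Df (R x) (ρ x)) (Icc 0 T) := cim (tj.cρ.mul (cconj tj.cR))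
  have cL : ContinuousOn (fun x => Lf (ρ x) (q x)) (Icc 0 T) := cim ((cconj tj.cρ).mul tj.cq)
  have hB : ∀ t ∈ Icc 0 T, Bf (R t) (w t) (ρ t) (q t) ≤ -547/1000 := by
    refine image_le_of_deriv_right_le_deriv_boundary cB (fun x hx => dB (tj.dR x hx) (tj.dρ x hx)
      (tj.dw x hx) (tj.dq x hx)) (B := fun _ => -547/1000) (B' := fun _ => 0) ini.iB
      continuousOn_const (fun x _ => hasDerivWithinAt_const _ _ _) (fun x hx => ?_)
    have hx' := Ico_subset_Icc_self hx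
    obtain ⟨a1, a2, a3⟩ := ap x hx'
    obtain ⟨⟨s1, s2⟩, s3, s4⟩ := sizes (a1.trans (by norm_num)) a2
    have hn : 0 < ‖ρ x‖ := norm_pos_iff.mpr (hne x hx')
    rw [max_eq_left (hge x hx'), max_eq_left (by linarith : ϱ ≤ ‖ρ x - R x‖),
      max_eq_left (by linarith : ϱ ≤ ‖R x‖)]
    have m1 : (100:ℝ) ≤ (‖ρ x‖^3)⁻¹ := by
      rw [le_inv_comm₀ (by norm_num) (by positivity)]
      calc ‖ρ x‖^3 ≤ (3/10^3)^3 := by gcongr
        _ ≤ _ := by norm_num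
    have m2 : 0 ≤ (‖ρ x - R x‖^3)⁻¹ := by positivity
    have m3 : (‖R x‖^3)⁻¹ ≤ 2 := by
      rw [inv_le_comm₀ (by positivity) (by norm_num)]
      calc ((2:ℝ))⁻¹ ≤ (998/1000)^3 := by norm_num
        _ ≤ _ := by gcongr
    have hb : 0 ≤ (1/2 + ε) * (‖ρ x‖^3)⁻¹ + (1/2 - ε) * (‖ρ x - R x‖^3)⁻¹ - (‖R x‖^3)⁻¹ := by
      have : 0 ≤ (1/2 - ε) * (‖ρ x - R x‖^3)⁻¹ := mul_nonneg (by linarith) m2
      nlinarith
    have := mul_nonneg (hD x hx') hb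
    linarith
  have hdD : ∀ x ∈ Ico 0 T, Bf (R x) (w x) (ρ x) (q x) + 2 * (ρ x * (starRingEnd ℂ) (w x)).im
      ≤ -(54/100) := by
    intro x hx
    have hx' := Ico_subset_Icc_self hx
    obtain ⟨a1, a2, a3⟩ := ap x hx'
    have h1 := (le_abs_self _).trans (Complex.abs_im_le_norm (ρ x * (starRingEnd ℂ) (w x)))
    rw [norm_mul, Complex.norm_conj] at h1
    have := hB x hx'
    linarith
  have hDec : ∀ s ∈ Icc 0 T, ∀ t ∈ Icc s T,
      Df (R t) (ρ t) ≤ Df (R s) (ρ s) - 54/100 * (t - s) := by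
    intro s hs
    refine image_le_of_deriv_right_le_deriv_boundary (cD.mono (Icc_subset_Icc_left hs.1))
      (fun x hx => dD (tj.dR x ⟨hs.1.trans hx.1, hx.2⟩) (tj.dρ x ⟨hs.1.trans hx.1, hx.2⟩))
      (B := fun t => Df (R s) (ρ s) - 54/100 * (t - s)) (B' := fun _ => -(54/100)) ?_
      (by fun_prop) (fun x _ => ?_) (fun x hx => hdD x ⟨hs.1.trans hx.1, hx.2⟩)
    · simp
    · have := (((hasDerivAt_id x).sub_const s).const_mul (54/100:ℝ)).const_sub (Df (R s) (ρ s))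
      simpa using this.hasDerivWithinAt
  refine ⟨fun t ht => ?_, hDec⟩
  obtain ⟨a1, a2, a3⟩ := ap t ht
  refine ⟨hB t ht, a3, ?_, a1, a2⟩
  have h0T : (0:ℝ) ∈ Icc 0 T := ⟨le_rfl, ht.1.trans ht.2⟩
  have := norm_image_sub_le_of_norm_deriv_right_le_segment (C := 12/10^8) cL
    (fun x hx => dL (tj.dρ x hx) (tj.dq x hx)) (fun x hx => ?_) t ht
  · rw [Real.norm_eq_abs] at this
    refine this.trans ?_
    have h1 := ht.2
    linarith
  · have hx' := Ico_subset_Icc_self hx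
    obtain ⟨a1, a2, a3⟩ := ap x hx'
    obtain ⟨⟨s1, s2⟩, s3, s4⟩ := sizes (a1.trans (by norm_num)) a2
    have h4 := (tidal hϱ (a1.trans (by norm_num)) a2).2.2.2
    have hd1 := hD x hx'
    have hd2 := hDec 0 h0T x hx'
    have hd3 := ini.iD
    have hd4 : Df (R x) (ρ x) ≤ 211/10^7 := by
      have := hx'.1
      linarith
    rw [max_eq_left (by linarith : ϱ ≤ ‖ρ x - R x‖), max_eq_left (by linarith : ϱ ≤ ‖R x‖)]
    rw [Real.norm_eq_abs, abs_mul, abs_mul, abs_of_nonneg hd1]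
    have h5 : |(-(1/2) : ℝ)| = 1/2 := by norm_num
    rw [h5]
    calc 1/2 * Df (R x) (ρ x) * |(‖ρ x - R x‖^3)⁻¹ - (‖R x‖^3)⁻¹|
        ≤ 1/2 * (211/10^7) * (36/10 * (3/10^3)) := by gcongr; exact h4.trans (by gcongr)
      _ ≤ 12/10^8 := by norm_num

/-- the side on which the segment is crossed is given by the sign of the angular momentum -/
theorem side {R w ρ q : ℂ} (hD : Df R ρ = 0) (hB : Bf R w ρ q ≤ -547/1000)
    (hw : ‖ρ‖ * ‖w‖ ≤ 31/10^4) : (0 < Lf ρ q → Gf R ρ < 0) ∧ (Lf ρ q < 0 → 0 < Gf R ρ) := by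
  have h1 := (le_abs_self _).trans (Complex.abs_im_le_norm (ρ * (starRingEnd ℂ) w))
  rw [norm_mul, Complex.norm_conj] at h1
  have h2 : (q * (starRingEnd ℂ) R).im < 0 := by
    unfold Bf at hB
    linarith
  have h3 : Complex.normSq R * Lf ρ q = Gf R ρ * (q * (starRingEnd ℂ) R).im := by
    have : Complex.normSq R * Lf ρ q = Gf R ρ * (q * (starRingEnd ℂ) R).im
        - Df R ρ * (q * (starRingEnd ℂ) R).re := by
      simp [Lf, Gf, Df, Complex.normSq_apply]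
      ring
    rw [this, hD]; ring
  have h4 := Complex.normSq_nonneg R
  constructor
  · intro hL
    by_contra hc
    push Not at hc
    have h5 : Gf R ρ * (q * (starRingEnd ℂ) R).im ≤ 0 := mul_nonpos_of_nonneg_of_nonpos hc h2.le
    rw [← h3] at h5
    have h6 : Complex.normSq R = 0 := by
      by_contra hne
      have : 0 < Complex.normSq R := lt_of_le_of_ne h4 (Ne.symm hne)
      nlinarith [mul_pos this hL]
    rw [Complex.normSq_eq_zero] at h6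
    rw [h6] at h2
    simp at h2
  · intro hL
    by_contra hc
    push Not at hc
    have h5 : 0 ≤ Gf R ρ * (q * (starRingEnd ℂ) R).im := mul_nonneg_of_nonpos_of_nonpos hc h2.le
    rw [← h3] at h5
    have h6 : Complex.normSq R = 0 := by
      by_contra hne
      have : 0 < Complex.normSq R := lt_of_le_of_ne h4 (Ne.symm hne)
      nlinarith [mul_pos_of_neg_of_neg (neg_neg_of_pos this) hL]
    rw [Complex.normSq_eq_zero] at h6
    rw [h6] at h2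
    simp at h2

end Run7.h704.SYH
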