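import Pool.Agent.Run7.h874.T704.H2

/-!
(piece H, written by helper704)

# Piece H, part 3: initial data, flows, the topological argument
-/

set_option autoImplicit false

namespace Run7.h704.SYH

open Complex Set Run7.h874 Filter Topology

noncomputable def rh (y : P4) : ℂ := y.2.1 + y.1.1/2
noncomputable def pin (y : P4) : ℂ := y.2.2 + y.1.2/2 + I * rh y
noncomputable def win (y : P4) : ℂ := y.1.2 + I * y.1.1

theorem cont_rh : Continuous rh := by unfold rh; fun_prop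
theorem cont_pin : Continuous pin := by unfold pin rh; fun_prop
theorem cont_win : Continuous win := by unfold win; fun_prop

theorem ellE_eq (y : P4) : ellE y = Lf (rh y) (pin y) := rfl

theorem ini_of_finE {ε : ℝ} (hε0 : 0 < ε) (hε : ε ≤ 1/10^8) {y : P4} (hy : FinE y) :
    Ini ε y.1.1 (win y) (rh y) (pin y) ∧ 7/10^4 ≤ ‖rh y‖ := by
  obtain ⟨⟨z1, z2, z3, z4, v1, v2, v3, v4⟩, hR, hW⟩ := hy
  have hR1 : ‖(y.1.1 - 1)/2‖ ≤ 1/10^16 := by
    rw [norm_div, Complex.norm_two]; linarith [norm_nonneg (y.1.1 - 1)]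
  have erh : rh y = (y.2.1 + 1/2) + (y.1.1 - 1)/2 := by unfold rh; ring
  have hz : ‖y.2.1 + 1/2‖ ≤ 10013/10^7 := by
    have e : ‖y.2.1 + 1/2‖^2 = (y.2.1 + 1/2).re^2 + (y.2.1 + 1/2).im^2 := by
      rw [← Complex.normSq_eq_norm_sq, Complex.normSq_apply]; ring
    have e2 : (y.2.1 + 1/2).im = y.2.1.im := by simp
    have h1 : ‖y.2.1 + 1/2‖^2 ≤ (10013/10^7)^2 := by
      rw [e, e2]
      nlinarith
    exact le_of_sq_le_sq h1 (by norm_num)
  have hrh : ‖rh y‖ ≤ 1002/10^6 := by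
    rw [erh]
    refine (norm_add_le _ _).trans ?_
    linarith
  have hre := Complex.abs_re_le_norm ((y.1.1 - 1)/2)
  have him := Complex.abs_im_le_norm ((y.1.1 - 1)/2)
  rw [abs_le] at hre him
  have rre : (rh y).re = (y.2.1 + 1/2).re + ((y.1.1 - 1)/2).re := by rw [erh, Complex.add_re]
  have rim : (rh y).im = y.2.1.im + ((y.1.1 - 1)/2).im := by
    rw [erh, Complex.add_im]; simp
  have hrh' : 7/10^4 ≤ ‖rh y‖ := by
    have := (le_abs_self _).trans (Complex.abs_re_le_norm (rh y))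
    linarith [hre.1]
  have hrn : 0 < ‖rh y‖ := by linarith
  have hIr : ‖I * rh y‖ = ‖rh y‖ := by rw [norm_mul, Complex.norm_I, one_mul]
  have hW2 : ‖y.1.2/2‖ ≤ 1/10^16 := by
    rw [norm_div, Complex.norm_two]; linarith [norm_nonneg y.1.2]
  have hq : ‖pin y‖ ≤ 360021/10^4 := by
    have h1 := norm_add_le (y.2.2 + y.1.2/2) (I * rh y)
    have h2 := norm_add_le y.2.2 (y.1.2/2)
    rw [hIr] at h1
    unfold pin
    linarith
  have hq0 : ‖pin y‖ ≤ 3601/100 := by linarith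
  have hw : ‖win y‖ ≤ 101/100 := by
    have h1 := norm_add_le y.1.2 (I * y.1.1)
    have h2 := norm_add_le (y.1.1 - 1) 1
    rw [norm_mul, Complex.norm_I, one_mul] at h1
    simp only [sub_add_cancel, norm_one] at h2
    unfold win
    linarith
  have hcR : ‖(starRingEnd ℂ) (y.1.1 - 1)‖ ≤ 1/10^16 := by rwa [Complex.norm_conj]
  have eR : (starRingEnd ℂ) y.1.1 = 1 + (starRingEnd ℂ) (y.1.1 - 1) := by simp
  have hmul : ∀ z : ℂ, ‖z‖ ≤ 100 → |(z * (starRingEnd ℂ) y.1.1).im - z.im| ≤ 1/10^14 := by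
    intro z hz
    have e : (z * (starRingEnd ℂ) y.1.1).im - z.im = (z * (starRingEnd ℂ) (y.1.1 - 1)).im := by
      rw [eR, mul_add, Complex.add_im, mul_one]; ring
    rw [e]
    refine (Complex.abs_im_le_norm _).trans ?_
    rw [norm_mul]
    calc ‖z‖ * ‖(starRingEnd ℂ) (y.1.1 - 1)‖ ≤ 100 * (1/10^16) := by gcongr
      _ ≤ _ := by norm_num
  refine ⟨⟨?_, ?_, hw, hq0, ?_, ?_, ?_, ?_⟩, hrh'⟩
  · linarith
  · linarith
  · have h1 : ‖pin y‖^2 ≤ (360021/10^4)^2 := by gcongr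
    have h2 : (1/2) / (1002/10^6) ≤ (1/2 + ε)/‖rh y‖ := by gcongr; linarith
    norm_num at h1 h2 ⊢
    linarith
  · unfold Bf
    have h1 := hmul (pin y) (by linarith)
    rw [abs_le] at h1
    have h2 : (pin y).im = y.2.2.im + (y.1.2/2).im + (rh y).re := by
      unfold pin; simp
    have h3 := Complex.abs_im_le_norm (y.1.2/2)
    rw [abs_le] at h3
    have h4 := Complex.abs_im_le_norm (rh y * (starRingEnd ℂ) (win y))
    rw [norm_mul, Complex.norm_conj, abs_le] at h4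
    have h5 : ‖rh y‖ * ‖win y‖ ≤ 1002/10^6 * (101/100) := by gcongr
    linarith [h1.2, h3.2, h4.1, hre.2]
  · unfold Df
    have h1 := hmul (rh y) (by linarith)
    rw [abs_le] at h1
    linarith [h1.2, him.2]
  · unfold Df
    have h1 := hmul (rh y) (by linarith)
    rw [abs_le] at h1
    linarith [h1.1, him.1]

theorem dfst {E F : Type*} [NormedAddCommGroup E] [NormedSpace ℝ E] [NormedAddCommGroup F]
    [NormedSpace ℝ F] {f : ℝ → E × F} {f' : E × F} {s : Set ℝ} {t : ℝ}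
    (h : HasDerivWithinAt f f' s t) : HasDerivWithinAt (fun x => (f x).1) f'.1 s t :=
  (ContinuousLinearMap.fst ℝ E F).hasFDerivAt.comp_hasDerivWithinAt t h

theorem dsnd {E F : Type*} [NormedAddCommGroup E] [NormedSpace ℝ E] [NormedAddCommGroup F]
    [NormedSpace ℝ F] {f : ℝ → E × F} {f' : E × F} {s : Set ℝ} {t : ℝ}
    (h : HasDerivWithinAt f f' s t) : HasDerivWithinAt (fun x => (f x).2) f'.2 s t :=
  (ContinuousLinearMap.snd ℝ E F).hasFDerivAt.comp_hasDerivWithinAt t h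

/-- reduced trajectory of a solution -/
theorem tj_of {ϱ ε T : ℝ} {X : ℝ → P4} (hc : ContinuousOn X (Icc 0 T))
    (hd : ∀ t ∈ Ico 0 T, HasDerivWithinAt X (fe ϱ ε (X t)) (Ici t) t) :
    Tj ϱ ε T (fun t => (X t).1.1) (fun t => win (X t)) (fun t => rh (X t))
      (fun t => pin (X t)) where
  cR := continuous_fst.comp_continuousOn (continuous_fst.comp_continuousOn hc)
  cw := cont_win.comp_continuousOn hc
  cρ := cont_rh.comp_continuousOn hc
  cq := cont_pin.comp_continuousOn hc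
  dR := fun t ht => by
    refine (dfst (dfst (hd t ht))).congr_deriv ?_
    simp [fe, win]
  dw := fun t ht => by
    have h := (hd t ht)
    refine ((dsnd (dfst h)).add ((dfst (dfst h)).const_mul I)).congr_deriv ?_
    simp only [fe, win, rh]
    have e : (X t).2.1 + (X t).1.1/2 - (X t).1.1 = (X t).2.1 - (X t).1.1/2 := by ring
    rw [e]
    have hI : I * I = -1 := Complex.I_mul_I
    linear_combination ((X t).1.1) * hI
  dρ := fun t ht => by
    have h := (hd t ht)
    refine ((dfst (dsnd h)).add ((dfst (dfst h)).div_const 2)).congr_deriv ?_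
    simp only [fe, pin, rh]
    ring
  dq := fun t ht => by
    have h := (hd t ht)
    refine (((dsnd (dsnd h)).add ((dsnd (dfst h)).div_const 2)).add
      (((dfst (dsnd h)).add ((dfst (dfst h)).div_const 2)).const_mul I)).congr_deriv ?_
    simp only [fe, pin, rh]
    have e : (X t).2.1 + (X t).1.1/2 - (X t).1.1 = (X t).2.1 - (X t).1.1/2 := by ring
    rw [e]
    have hI : I * I = -1 := Complex.I_mul_I
    linear_combination (((X t).2.1 + (X t).1.1/2)) * hI

/-- the topological argument: the side of the first zero cannot change along a curve -/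
theorem conn {a b : ℝ} {F G : ℝ → ℝ → ℝ} (hF : Continuous (Function.uncurry F))
    (hG : Continuous (Function.uncurry G)) {Z : ℝ → ℝ → Prop}
    (hZ : ∀ p t0, Z p t0 → 0 ≤ t0 ∧ (∀ s ∈ Ico 0 t0, 0 < F p s) ∧
      ∀ η > 0, ∃ t ∈ Ioo t0 (t0 + η), F p t < 0)
    (h : ∀ p ∈ Icc a b, ∃ t0, Z p t0 ∧ G p t0 ≠ 0)
    (ha : ∃ p ∈ Icc a b, ∃ t0, Z p t0 ∧ G p t0 < 0)
    (hb : ∃ p ∈ Icc a b, ∃ t0, Z p t0 ∧ 0 < G p t0) : False := by
  have op : ∀ H : ℝ → ℝ → ℝ, Continuous (Function.uncurry H) →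
      IsOpen {p | ∃ t, 0 ≤ t ∧ F p t < 0 ∧ ∀ s ∈ Icc 0 t, 0 < F p s ∨ 0 < H p s} := by
    intro H hH
    rw [isOpen_iff_mem_nhds]
    rintro p ⟨t, ht0, ht1, ht2⟩
    have e1 : ∀ᶠ p' in 𝓝 p, F p' t < 0 := by
      have : Continuous fun p' => F p' t := hF.comp (by fun_prop : Continuous fun p' => (p', t))
      exact this.continuousAt.eventually_lt continuousAt_const ht1
    have e2 : ∀ᶠ p' in 𝓝 p, ∀ s ∈ Icc 0 t, 0 < F p' s ∨ 0 < H p' s := by
      refine isCompact_Icc.eventually_forall_of_forall_eventually (fun s hs => ?_)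
      rcases ht2 s hs with h1 | h1
      · have := hF.continuousAt.eventually (lt_mem_nhds h1 :
          ∀ᶠ x in 𝓝 (Function.uncurry F (p, s)), 0 < x)
        exact this.mono fun z hz => Or.inl hz
      · have := hH.continuousAt.eventually (lt_mem_nhds h1 :
          ∀ᶠ x in 𝓝 (Function.uncurry H (p, s)), 0 < x)
        exact this.mono fun z hz => Or.inr hz
    filter_upwards [e1, e2] with p' h1 h2
    exact ⟨t, ht0, h1, h2⟩
  have mem : ∀ H : ℝ → ℝ → ℝ, Continuous (Function.uncurry H) → ∀ p t0, Z p t0 → 0 < H p t0 →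
      p ∈ {p | ∃ t, 0 ≤ t ∧ F p t < 0 ∧ ∀ s ∈ Icc 0 t, 0 < F p s ∨ 0 < H p s} := by
    intro H hH p t0 hz hp
    obtain ⟨h0, h1, h2⟩ := hZ p t0 hz
    have hc : Continuous fun s => H p s := hH.comp (by fun_prop : Continuous fun s => (p, s))
    obtain ⟨η, hη, hη'⟩ := Metric.eventually_nhds_iff.mp
      (hc.continuousAt.eventually (lt_mem_nhds hp : ∀ᶠ x in 𝓝 (H p t0), 0 < x))
    obtain ⟨t, ht, htF⟩ := h2 η hη
    refine ⟨t, h0.trans ht.1.le, htF, fun s hs => ?_⟩
    by_cases hst : s < t0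
    · exact Or.inl (h1 s ⟨hs.1, hst⟩)
    · right
      apply hη'
      rw [Real.dist_eq, abs_of_nonneg (by linarith)]
      linarith [hs.2, ht.2]
  have hGn : Continuous (Function.uncurry fun p t => - G p t) := by
    have := hG.neg
    exact this
  obtain ⟨pa, hpa, ta, hza, hga⟩ := ha
  obtain ⟨pb, hpb, tb, hzb, hgb⟩ := hb
  have := isPreconnected_Icc (a := a) (b := b) _ _ (op G hG) (op _ hGn)
    (fun p hp => by
      obtain ⟨t0, hz, hg⟩ := h p hp
      rcases lt_or_gt_of_ne hg with h1 | h1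
      · exact Or.inr (mem _ hGn p t0 hz (by simpa using h1))
      · exact Or.inl (mem _ hG p t0 hz h1))
    ⟨pb, hpb, mem _ hG pb tb hzb hgb⟩ ⟨pa, hpa, mem _ hGn pa ta hza (by simpa using hga)⟩
  obtain ⟨p, -, ⟨t1, h1, h2, h3⟩, ⟨t2, h4, h5, h6⟩⟩ := this
  rcases le_total t1 t2 with h7 | h7
  · rcases h3 t1 ⟨h1, le_rfl⟩ with h8 | h8
    · linarith
    · rcases h6 t1 ⟨h1, h7⟩ with h9 | h9
      · linarith
      · simp at h9; linarith
  · rcases h3 t2 ⟨h4, h7⟩ with h8 | h8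
    · linarith
    · rcases h6 t2 ⟨h4, le_rfl⟩ with h9 | h9
      · linarith
      · simp at h9; linarith

end Run7.h704.SYH
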