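import Pool.Agent.Run7.h874.T704.H3

/-!
(piece H, written by helper704)

# Piece H, part 4: curves of initial data contain collision data at every scale
-/

set_option autoImplicit false

namespace Run7.h704.SYH

open Complex Set Run7.h874 Filter Topology

noncomputable def Tm : ℝ := 45/10^6

noncomputable def DX (x : P4) : ℝ := Df x.1.1 (rh x)
noncomputable def GX (x : P4) : ℝ := Gf x.1.1 (rh x)

theorem cont_DX : Continuous DX := by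
  unfold DX Df
  exact Complex.continuous_im.comp (cont_rh.mul (Complex.continuous_conj.comp (by fun_prop)))

theorem cont_GX : Continuous GX := by
  unfold GX Gf
  exact Complex.continuous_re.comp (cont_rh.mul (Complex.continuous_conj.comp (by fun_prop)))

def Cset (ϱ : ℝ) (Φ : ℝ → P4 → P4) : Set P4 :=
  {y | ∃ t ∈ Icc 0 Tm, ‖rh (Φ t y)‖ ≤ ϱ ∧ ∀ s ∈ Icc 0 t, 0 ≤ DX (Φ s y)}

theorem ap_flow {ϱ ε T : ℝ} {X : ℝ → P4} (hϱ : ϱ ≤ 1/2) (hε0 : 0 < ε) (hε : ε ≤ 1/10^8)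
    (hT : T ≤ Tm) (hc : ContinuousOn X (Icc 0 T))
    (hd : ∀ t ∈ Ico 0 T, HasDerivWithinAt X (fe ϱ ε (X t)) (Ici t) t) (hy : FinE (X 0))
    (hne : ∀ t ∈ Icc 0 T, 0 < ‖rh (X t)‖) (hge : ∀ t ∈ Icc 0 T, ϱ ≤ ‖rh (X t)‖)
    (hD : ∀ t ∈ Icc 0 T, 0 ≤ DX (X t)) :
    (∀ t ∈ Icc 0 T, Bf (X t).1.1 (win (X t)) (rh (X t)) (pin (X t)) ≤ -547/1000 ∧
      ‖rh (X t)‖ * ‖win (X t)‖ ≤ 31/10^4 ∧ |ellE (X t) - ellE (X 0)| ≤ 6/10^12 ∧
      ‖rh (X t)‖ ≤ 3/10^3 ∧ ‖(X t).1.1 - 1‖ ≤ 2/10^3) ∧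
    ∀ s ∈ Icc 0 T, ∀ t ∈ Icc s T, DX (X t) ≤ DX (X s) - 54/100 * (t - s) :=
  AP2 hϱ hε0 hε hT (tj_of hc hd) (fun t ht => norm_pos_iff.mp (hne t ht)) hge
    (ini_of_finE hε0 hε hy).1 hD

/-- first time at which a closed condition holds -/
theorem first_time {T : ℝ} {P : ℝ → Prop} (hP : IsClosed {t | t ∈ Icc 0 T ∧ P t})
    (h : ∃ t ∈ Icc 0 T, P t) : ∃ t ∈ Icc 0 T, P t ∧ ∀ s ∈ Ico 0 t, ¬ P s := by
  obtain ⟨t1, ht1, hPt⟩ := h
  have hb : BddBelow {t | t ∈ Icc 0 T ∧ P t} := ⟨0, fun t ht => ht.1.1⟩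
  have h0 := hP.csInf_mem ⟨t1, ht1, hPt⟩ hb
  refine ⟨_, h0.1, h0.2, fun s hs hPs => ?_⟩
  have := csInf_le hb (⟨⟨hs.1, hs.2.le.trans h0.1.2⟩, hPs⟩ : s ∈ {t | t ∈ Icc 0 T ∧ P t})
  linarith [hs.2]

theorem flow_cont {ϱ ε : ℝ} {Φ : ℝ → P4 → P4} (hΦ : IsFlow (fe ϱ ε) Φ) (y : P4) :
    Continuous fun t => Φ t y := hΦ.cont.comp (by fun_prop : Continuous fun t : ℝ => (t, y))

theorem first_zero {ϱ ε : ℝ} (hϱ0 : 0 < ϱ) (hϱ : ϱ ≤ rho0) (hε0 : 0 < ε) (hε : ε ≤ 1/10^8)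
    {Φ : ℝ → P4 → P4} (hΦ : IsFlow (fe ϱ ε) Φ) {y : P4} (hy : FinE y) (hn : y ∉ Cset ϱ Φ) :
    ∃ t0 ∈ Icc 0 Tm, (∀ s ∈ Ico 0 t0, 0 < DX (Φ s y)) ∧ DX (Φ t0 y) = 0 ∧
      (∀ s ∈ Icc 0 t0, ϱ < ‖rh (Φ s y)‖) := by
  have hc := flow_cont hΦ y
  have cD : Continuous fun t => DX (Φ t y) := cont_DX.comp hc
  have cR : Continuous fun t => ‖rh (Φ t y)‖ := (cont_rh.comp hc).norm
  have hϱ2 : ϱ ≤ 1/2 := hϱ.trans (by unfold rho0; norm_num)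
  have hini := (ini_of_finE hε0 hε hy).1
  have hcl : IsClosed {t | t ∈ Icc 0 Tm ∧ (DX (Φ t y) ≤ 0 ∨ ‖rh (Φ t y)‖ ≤ ϱ)} :=
    isClosed_Icc.inter ((isClosed_le cD continuous_const).union (isClosed_le cR continuous_const))
  have hex : ∃ t ∈ Icc 0 Tm, DX (Φ t y) ≤ 0 ∨ ‖rh (Φ t y)‖ ≤ ϱ := by
    by_contra hcon
    push Not at hcon
    have := (ap_flow (T := Tm) (X := fun t => Φ t y) hϱ2 hε0 hε le_rfl hc.continuousOn
      (fun t _ => (hΦ.deriv t y).hasDerivWithinAt) (by simpa [hΦ.zero] using hy)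
      (fun t ht => hϱ0.trans (hcon t ht).2) (fun t ht => (hcon t ht).2.le)
      (fun t ht => (hcon t ht).1.le)).2
    have hT0 : (0:ℝ) ≤ Tm := by unfold Tm; norm_num
    have h1 := this 0 ⟨le_rfl, hT0⟩ Tm ⟨hT0, le_rfl⟩
    have h2 := (hcon Tm ⟨hT0, le_rfl⟩).1
    simp only [hΦ.zero] at h1
    have h3 : DX y ≤ 211/10^7 := hini.iD
    unfold Tm at h1 h2
    linarith
  obtain ⟨t0, ht0, hP, hlt⟩ := first_time hcl hex
  have hlt' : ∀ s ∈ Ico 0 t0, 0 < DX (Φ s y) ∧ ϱ < ‖rh (Φ s y)‖ := by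
    intro s hs
    have := hlt s hs
    push Not at this
    exact this
  have hD0 : 0 ≤ DX (Φ t0 y) := by
    rcases ht0.1.eq_or_lt with h0 | h0
    · rw [← h0, hΦ.zero]
      exact hini.iD0.le
    · refine ge_of_tendsto (x := 𝓝[<] t0) (cD.continuousAt.mono_left nhdsWithin_le_nhds) ?_
      filter_upwards [Ioo_mem_nhdsLT h0] with s hs
      exact (hlt' s ⟨hs.1.le, hs.2⟩).1.le
  have hr : ϱ < ‖rh (Φ t0 y)‖ := by
    by_contra hcon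
    push Not at hcon
    refine hn ⟨t0, ht0, hcon, fun s hs => ?_⟩
    rcases hs.2.eq_or_lt with h1 | h1
    · rw [h1]; exact hD0
    · exact (hlt' s ⟨hs.1, h1⟩).1.le
  refine ⟨t0, ht0, fun s hs => (hlt' s hs).1, ?_, fun s hs => ?_⟩
  · rcases hP with h1 | h1
    · exact le_antisymm h1 hD0
    · linarith
  · rcases hs.2.eq_or_lt with h1 | h1
    · rw [h1]; exact hr
    · exact (hlt' s ⟨hs.1, h1⟩).2

theorem nonempty_K {ε ϱ a b : ℝ} (hε0 : 0 < ε) (hε : ε ≤ 1/10^8) (hϱ0 : 0 < ϱ) (hϱ : ϱ ≤ rho0)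
    {Φ : ℝ → P4 → P4} (hΦ : IsFlow (fe ϱ ε) Φ) {y : ℝ → P4} (hab : a < b)
    (hy : ContinuousOn y (Icc a b)) (hF : ∀ p ∈ Icc a b, FinE (y p))
    (hX : Cross (fun p => ellE (y p)) a b (-(ell0/2)) (ell0/2)) :
    ∃ p ∈ Icc a b, y p ∈ Cset ϱ Φ := by
  by_contra hcon
  push Not at hcon
  have hϱ2 : ϱ ≤ 1/2 := hϱ.trans (by unfold rho0; norm_num)
  set Y : ℝ → P4 := IccExtend hab.le ((Icc a b).domRestrict y) with hYd
  have hYc : Continuous Y := (continuousOn_iff_continuous_domRestrict.mp hy).Icc_extend'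
  have hYe : ∀ p ∈ Icc a b, Y p = y p := fun p hp => by
    rw [hYd, IccExtend_of_mem _ _ hp]; rfl
  have hjoint : Continuous (Function.uncurry fun p t => Φ t (Y p)) := by
    have : Continuous fun z : ℝ × ℝ => Function.uncurry Φ (z.2, Y z.1) :=
      hΦ.cont.comp (continuous_snd.prodMk (hYc.comp continuous_fst))
    exact this
  have main : ∀ p ∈ Icc a b, ∃ t0, (0 ≤ t0 ∧ (∀ s ∈ Ico 0 t0, 0 < DX (Φ s (Y p))) ∧
      ∀ η > 0, ∃ t ∈ Ioo t0 (t0 + η), DX (Φ t (Y p)) < 0) ∧ GX (Φ t0 (Y p)) ≠ 0 ∧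
      (ell0/2 ≤ ellE (y p) → GX (Φ t0 (Y p)) < 0) ∧
      (ellE (y p) ≤ -(ell0/2) → 0 < GX (Φ t0 (Y p))) := by
    intro p hp
    have hFp : FinE (Y p) := by rw [hYe p hp]; exact hF p hp
    have hnp : Y p ∉ Cset ϱ Φ := by rw [hYe p hp]; exact hcon p hp
    obtain ⟨t0, ht0, h1, h2, h3⟩ := first_zero hϱ0 hϱ hε0 hε hΦ hFp hnp
    have hc := flow_cont hΦ (Y p)
    have ap := (ap_flow (T := t0) (X := fun t => Φ t (Y p)) hϱ2 hε0 hε ht0.2 hc.continuousOn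
      (fun t _ => (hΦ.deriv t (Y p)).hasDerivWithinAt) (by simpa [hΦ.zero] using hFp)
      (fun t ht => hϱ0.trans (h3 t ht)) (fun t ht => (h3 t ht).le)
      (fun t ht => by
        rcases ht.2.eq_or_lt with h | h
        · show 0 ≤ DX (Φ t (Y p))
          rw [h, h2]
        · exact (h1 t ⟨ht.1, h⟩).le)).1 t0 ⟨ht0.1, le_rfl⟩
    obtain ⟨b1, b2, b3, b4, b5⟩ := ap
    simp only [hΦ.zero] at b3
    have hs := side h2 b1 b2
    rw [← ellE_eq] at hs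
    rw [abs_le, hYe p hp] at b3
    have hl0 : ell0 = 2/10^11 := rfl
    rw [← hYe p hp] at b3 ⊢
    refine ⟨t0, ⟨ht0.1, h1, fun η hη => ?_⟩, ?_, fun hl => hs.1 ?_, fun hl => hs.2 ?_⟩
    · -- the derivative is negative
      have hd : HasDerivWithinAt (fun t => DX (Φ t (Y p)))
          (Bf (Φ t0 (Y p)).1.1 (win (Φ t0 (Y p))) (rh (Φ t0 (Y p))) (pin (Φ t0 (Y p)))
            + 2 * (rh (Φ t0 (Y p)) * (starRingEnd ℂ) (win (Φ t0 (Y p)))).im) (Ici t0) t0 := by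
        have tj := tj_of (ϱ := ϱ) (ε := ε) (T := t0 + 1) (X := fun t => Φ t (Y p)) hc.continuousOn
          (fun t _ => (hΦ.deriv t (Y p)).hasDerivWithinAt)
        have hm : t0 ∈ Ico 0 (t0 + 1) := ⟨ht0.1, by linarith⟩
        exact dD (R := fun t => (Φ t (Y p)).1.1) (w := fun t => win (Φ t (Y p)))
          (ρ := fun t => rh (Φ t (Y p))) (q := fun t => pin (Φ t (Y p)))
          (tj.dR t0 hm) (tj.dρ t0 hm)
      have h4 := (le_abs_self _).trans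
        (Complex.abs_im_le_norm (rh (Φ t0 (Y p)) * (starRingEnd ℂ) (win (Φ t0 (Y p)))))
      rw [norm_mul, Complex.norm_conj] at h4
      have h5 := hd.liminf_right_slope_le (r := 0) (by linarith)
      have h6 : ∀ᶠ z in 𝓝[>] t0, z ∈ Ioo t0 (t0 + η) := Ioo_mem_nhdsGT (by linarith)
      obtain ⟨z, hz1, hz2⟩ := (h5.and_eventually h6).exists
      refine ⟨z, hz2, ?_⟩
      rw [slope_def_field, div_lt_iff₀ (by linarith [hz2.1])] at hz1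
      rw [h2] at hz1
      linarith
    · intro hG
      have h4 : rh (Φ t0 (Y p)) * (starRingEnd ℂ) (Φ t0 (Y p)).1.1 = 0 := Complex.ext hG h2
      rcases mul_eq_zero.mp h4 with h5 | h5
      · have := h3 t0 ⟨ht0.1, le_rfl⟩
        rw [h5, norm_zero] at this
        linarith
      · rw [map_eq_zero] at h5
        rw [h5] at b5
        norm_num at b5
    · linarith [b3.1]
    · linarith [b3.2]
  have ha := main a ⟨le_rfl, hab.le⟩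
  have hb := main b ⟨hab.le, le_rfl⟩
  have cF : Continuous (Function.uncurry fun p t => DX (Φ t (Y p))) := cont_DX.comp hjoint
  have cG : Continuous (Function.uncurry fun p t => GX (Φ t (Y p))) := cont_GX.comp hjoint
  obtain ⟨ta, za, -, a1, a2⟩ := ha
  obtain ⟨tb, zb, -, b1, b2⟩ := hb
  refine conn (a := a) (b := b) cF cG
    (Z := fun p t0 => 0 ≤ t0 ∧ (∀ s ∈ Ico 0 t0, 0 < DX (Φ s (Y p))) ∧
      ∀ η > 0, ∃ t ∈ Ioo t0 (t0 + η), DX (Φ t (Y p)) < 0) (fun p t0 h => h)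
    (fun p hp => by
      obtain ⟨t0, z, g, -⟩ := main p hp
      exact ⟨t0, z, g⟩) ?_ ?_
  · rcases hX with ⟨h1, h2⟩ | ⟨h1, h2⟩
    · exact ⟨b, ⟨hab.le, le_rfl⟩, tb, zb, b1 h2⟩
    · exact ⟨a, ⟨le_rfl, hab.le⟩, ta, za, a1 h1⟩
  · rcases hX with ⟨h1, h2⟩ | ⟨h1, h2⟩
    · exact ⟨a, ⟨le_rfl, hab.le⟩, ta, za, a2 h1⟩
    · exact ⟨b, ⟨hab.le, le_rfl⟩, tb, zb, b2 h2⟩

end Run7.h704.SYH
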